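import Mathlib
import Pool.Agent.DRN.Simple

/-!
# MP_d9a27f_al: a counterexample to the nil-clean question can be taken of characteristic two,
without nontrivial central idempotents, without nonzero pi-regular ideals, and such that its
infinite simple modules have no common nonzero annihilator
-/

set_option autoImplicit false

namespace Pool.Agent.Results.MP_d9a27f_al.PiRegularReduction

universe u

theorem result (R : Type u) [Ring R] (hR : ¬ DRN.DRegularlyNilClean R) :
    ∃ (M : Ideal R) (_ : M.IsTwoSided), ¬ DRN.DRegularlyNilClean (R ⧸ M) ∧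
      (∀ K : Ideal (R ⧸ M), K.IsTwoSided → (∀ x ∈ K, DRN.PiRegularElem x) → K = ⊥) ∧
      (∀ z : R ⧸ M, IsIdempotentElem z → (∀ x, z * x = x * z) → z = 0 ∨ z = 1) ∧
      (DRN.NilClean R → DRN.NilClean (R ⧸ M) ∧ (2 : R ⧸ M) = 0 ∧
        ∀ x : R ⧸ M, x ≠ 0 →
          ∃ m : Ideal (R ⧸ M), m.IsMaximal ∧ Infinite ((R ⧸ M) ⧸ m) ∧ x ∉ m) :=
  DRN.main' hR

end Pool.Agent.Results.MP_d9a27f_al.PiRegularReduction
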